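import Mathlib

set_option autoImplicit false

/-!
# Long extremal square-free permutations: the layered sequence and its modification
-/

namespace Pool.Agent.Q20.ESQ

/-- The layered sequence on `(0, 2^B)`: the odd places carry the peaks (`≡ 1 mod 4`) and the
valleys (`≡ 3 mod 4`), the even places carry the same sequence one level down. -/
def F : ℕ → ℕ → ℤ
  | 0, _ => 0
  | 1, _ => 0
  | (B + 2), u => if u % 2 = 0 then F (B + 1) (u / 2)
      else if u % 4 = 1 then 4 ^ (B + 2) + 2 ^ (B + 2) - u else -4 ^ (B + 2) - u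

theorem F_even (B u : ℕ) (h : u % 2 = 0) : F (B + 2) u = F (B + 1) (u / 2) := by
  simp [F, h]

theorem F_one (B u : ℕ) (h : u % 4 = 1) : F (B + 2) u = 4 ^ (B + 2) + 2 ^ (B + 2) - u := by
  have h2 : ¬ u % 2 = 0 := by omega
  simp [F, h, h2]

theorem F_three (B u : ℕ) (h : u % 4 = 3) : F (B + 2) u = -4 ^ (B + 2) - u := by
  have h2 : ¬ u % 2 = 0 := by omega
  simp [F, h, h2]

theorem pow_le (B : ℕ) : (2 : ℤ) ^ B ≤ 4 ^ B := by
  exact pow_le_pow_left₀ (by norm_num) (by norm_num) B

theorem F_bound : ∀ (B u : ℕ), u < 2 ^ B → F B u ≤ 4 ^ B + 2 ^ B ∧ -(4 ^ B + 2 ^ B) ≤ F B u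
  | 0, u, _ => by simp [F]
  | 1, u, _ => by simp [F]
  | (B + 2), u, h => by
    have h4 : (0 : ℤ) < 4 ^ (B + 1) := by positivity
    have h2 : (0 : ℤ) < 2 ^ (B + 1) := by positivity
    have e4 : (4 : ℤ) ^ (B + 2) = 4 * 4 ^ (B + 1) := by ring
    have e2 : (2 : ℤ) ^ (B + 2) = 2 * 2 ^ (B + 1) := by ring
    have hu : (u : ℤ) < 2 ^ (B + 2) := by exact_mod_cast h
    have hu0 : (0 : ℤ) ≤ u := by positivity
    rcases Nat.lt_or_ge (u % 2) 1 with h0 | h1
    · have h0' : u % 2 = 0 := by omega
      rw [F_even B u h0']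
      have hb : u / 2 < 2 ^ (B + 1) := by
        have : 2 ^ (B + 2) = 2 * 2 ^ (B + 1) := by ring
        omega
      have := F_bound (B + 1) (u / 2) hb
      constructor <;> linarith [this.1, this.2]
    · have : u % 4 = 1 ∨ u % 4 = 3 := by omega
      rcases this with h3 | h3
      · rw [F_one B u h3]
        constructor <;> linarith
      · rw [F_three B u h3]
        constructor <;> linarith

/-- the mids are small -/
theorem F_mid (B u : ℕ) (h : u % 2 = 0) (hu : u < 2 ^ (B + 2)) :
    F (B + 2) u < 4 ^ (B + 2) - 4 ^ (B + 1) ∧ -(4 ^ (B + 2) - 4 ^ (B + 1)) < F (B + 2) u := by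
  have h4 : (0 : ℤ) < 4 ^ (B + 1) := by positivity
  have e4 : (4 : ℤ) ^ (B + 2) = 4 * 4 ^ (B + 1) := by ring
  have hp := pow_le (B + 1)
  rw [F_even B u h]
  have hb : u / 2 < 2 ^ (B + 1) := by
    have : 2 ^ (B + 2) = 2 * 2 ^ (B + 1) := by ring
    omega
  have := F_bound (B + 1) (u / 2) hb
  constructor <;> linarith [this.1, this.2]

/-- the peaks are large -/
theorem F_peak (B u : ℕ) (h : u % 4 = 1) (hu : u < 2 ^ (B + 2)) : 4 ^ (B + 2) < F (B + 2) u := by
  have hu : (u : ℤ) < 2 ^ (B + 2) := by exact_mod_cast hu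
  rw [F_one B u h]; linarith

/-- the valleys are small -/
theorem F_valley (B u : ℕ) (h : u % 4 = 3) : F (B + 2) u < -4 ^ (B + 2) := by
  have hu : (0 : ℤ) < u := by exact_mod_cast (by omega : 0 < u)
  rw [F_three B u h]; linarith

/-- antisymmetry -/
theorem F_anti : ∀ (B u : ℕ), 0 < u → u < 2 ^ B → F B (2 ^ B - u) = - F B u
  | 0, u, _, _ => by simp [F]
  | 1, u, _, _ => by simp [F]
  | (B + 2), u, h0, h => by
    have e2 : 2 ^ (B + 2) = 4 * 2 ^ B := by ring
    have e2' : 2 ^ (B + 1) = 2 * 2 ^ B := by ring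
    rcases Nat.lt_or_ge (u % 2) 1 with h1 | h1
    · have h0' : u % 2 = 0 := by omega
      rw [F_even B u h0', F_even B (2 ^ (B + 2) - u) (by omega)]
      have e : (2 ^ (B + 2) - u) / 2 = 2 ^ (B + 1) - u / 2 := by omega
      rw [e]
      exact F_anti (B + 1) (u / 2) (by omega) (by omega)
    · have : u % 4 = 1 ∨ u % 4 = 3 := by omega
      have hc : ((2 ^ (B + 2) - u : ℕ) : ℤ) = 2 ^ (B + 2) - u := by
        rw [Nat.cast_sub h.le]; push_cast; ring
      rcases this with h3 | h3
      · rw [F_one B u h3, F_three B _ (by omega), hc]; ring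
      · rw [F_three B u h3, F_one B _ (by omega), hc]; ring

/-- directions -/
theorem F_dir (B u : ℕ) (hu0 : 0 < u) (hu : u + 1 < 2 ^ (B + 2)) :
    F (B + 2) u < F (B + 2) (u + 1) ↔ (u % 4 = 3 ∨ u % 4 = 0) := by
  have h4 : (0 : ℤ) < 4 ^ (B + 1) := by positivity
  have h4' : (0 : ℤ) < 4 ^ (B + 2) := by positivity
  have : u % 4 = 0 ∨ u % 4 = 1 ∨ u % 4 = 2 ∨ u % 4 = 3 := by omega
  rcases this with h | h | h | h
  · have a := F_mid B u (by omega) (by omega)
    have b := F_peak B (u + 1) (by omega) (by omega)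
    simp only [h, or_true, iff_true]
    linarith [a.1]
  · have a := F_mid B (u + 1) (by omega) (by omega)
    have b := F_peak B u (by omega) (by omega)
    have c : ¬ F (B + 2) u < F (B + 2) (u + 1) := by linarith [a.1]
    simp [h, c]
  · have a := F_mid B u (by omega) (by omega)
    have b := F_valley B (u + 1) (by omega)
    have c : ¬ F (B + 2) u < F (B + 2) (u + 1) := by linarith [a.2]
    simp [h, c]
  · have a := F_mid B (u + 1) (by omega) (by omega)
    have b := F_valley B u (by omega)
    simp only [h, true_or, iff_true]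
    linarith [a.2]

/-- a direction pattern with period four leaves only squares of half-length divisible by four -/
theorem four_dvd_of_dir (f : ℕ → ℤ) (c i l : ℕ) (hl : 2 ≤ l)
    (hd : ∀ j, i ≤ j → j + 1 < i + 2 * l → (f j < f (j + 1) ↔ ((j + c) % 4 = 3 ∨ (j + c) % 4 = 0)))
    (hs : ∀ a < l, ∀ b < l, (f (i + a) < f (i + b) ↔ f (i + l + a) < f (i + l + b))) :
    l % 4 = 0 := by
  have h1 := hs 0 (by omega) 1 (by omega)
  have d1 := hd i (by omega) (by omega)
  have d2 := hd (i + l) (by omega) (by omega)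
  simp only [Nat.add_zero] at h1
  rw [d1, show i + l + 1 = (i + l) + 1 from rfl, d2] at h1
  by_cases h3 : 3 ≤ l
  · have h2 := hs 1 (by omega) 2 (by omega)
    have d3 := hd (i + 1) (by omega) (by omega)
    have d4 := hd (i + l + 1) (by omega) (by omega)
    rw [show i + 2 = i + 1 + 1 from rfl, d3, show i + l + 2 = i + l + 1 + 1 from rfl, d4] at h2
    omega
  · omega

theorem F_nosq : ∀ (B p l : ℕ), 2 ≤ l → 1 ≤ p → p + 2 * l ≤ 2 ^ B →
    ¬ ∀ a < l, ∀ b < l, (F B (p + a) < F B (p + b) ↔ F B (p + l + a) < F B (p + l + b))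
  | 0, p, l, hl, hp, h, _ => by simp at h; omega
  | 1, p, l, hl, hp, h, _ => by simp at h; omega
  | (B + 2), p, l, hl, hp, h, hs => by
    have e2 : 2 ^ (B + 2) = 2 * 2 ^ (B + 1) := by ring
    have h4 : l % 4 = 0 := by
      refine four_dvd_of_dir (F (B + 2)) 0 p l hl ?_ hs
      intro j h1 h2
      exact F_dir B j (by omega) (by omega)
    refine F_nosq (B + 1) ((p + 1) / 2) (l / 2) (by omega) (by omega) (by omega) ?_
    intro a ha b hb
    have key := hs (2 * ((p + 1) / 2) - p + 2 * a) (by omega) (2 * ((p + 1) / 2) - p + 2 * b)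
      (by omega)
    have hev : ∀ x y : ℕ, x = 2 * y → F (B + 2) x = F (B + 1) y := by
      intro x y hxy
      rw [hxy, F_even B (2 * y) (by omega)]
      congr 1
      omega
    rw [hev _ ((p + 1) / 2 + a) (by omega), hev _ ((p + 1) / 2 + b) (by omega),
      hev (p + l + (2 * ((p + 1) / 2) - p + 2 * a)) ((p + 1) / 2 + l / 2 + a) (by omega),
      hev (p + l + (2 * ((p + 1) / 2) - p + 2 * b)) ((p + 1) / 2 + l / 2 + b) (by omega)] at key
    exact key

/-- comparison of small places does not depend on the number of levels -/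
theorem F_cmp : ∀ (b B : ℕ), b + 1 ≤ B → ∀ u v : ℕ, u < 2 ^ b → v < 2 ^ b →
    (F B u < F B v ↔ F (b + 1) u < F (b + 1) v)
  | 0, B, _, u, v, hu, hv => by
    have : u = v := by simp at hu hv; omega
    subst this; simp
  | (b + 1), B, hB, u, v, hu, hv => by
    obtain ⟨C, rfl⟩ : ∃ C, B = C + 2 := ⟨B - 2, by omega⟩
    have hb : 2 ^ (b + 2) ≤ 2 ^ (C + 2) := Nat.pow_le_pow_right (by norm_num) (by omega)
    have e2 : 2 ^ (b + 2) = 2 * 2 ^ (b + 1) := by ring
    have e3 : 2 ^ (b + 1) = 2 * 2 ^ b := by ring
    have p1 : (0 : ℤ) < 4 ^ (b + 1) := by positivity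
    have p2 : (0 : ℤ) < 4 ^ (b + 2) := by positivity
    have p3 : (0 : ℤ) < 4 ^ (C + 1) := by positivity
    have p4 : (0 : ℤ) < 4 ^ (C + 2) := by positivity
    have hu' : u % 2 = 0 ∨ u % 4 = 1 ∨ u % 4 = 3 := by omega
    have hv' : v % 2 = 0 ∨ v % 4 = 1 ∨ v % 4 = 3 := by omega
    rcases hu' with h | h | h <;> rcases hv' with k | k | k
    · rw [F_even C u h, F_even C v k]
      show _ ↔ F (b + 2) u < F (b + 2) v
      rw [F_even b u h, F_even b v k]
      exact F_cmp b (C + 1) (by omega) (u / 2) (v / 2) (by omega) (by omega)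
    · have a1 := F_mid C u h (by omega)
      have a2 := F_mid b u h (by omega)
      have b1 := F_peak C v k (by omega)
      have b2 := F_peak b v k (by omega)
      constructor <;> intro _ <;> show _ < _ <;> linarith [a1.1, a2.1]
    · have a1 := F_mid C u h (by omega)
      have a2 := F_mid b u h (by omega)
      have b1 := F_valley C v k
      have b2 := F_valley b v k
      constructor
      · intro h; exfalso; linarith [a1.2]
      · intro h; exfalso; change F (b + 2) u < F (b + 2) v at h; linarith [a2.2]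
    · have a1 := F_mid C v k (by omega)
      have a2 := F_mid b v k (by omega)
      have b1 := F_peak C u h (by omega)
      have b2 := F_peak b u h (by omega)
      constructor
      · intro h; exfalso; linarith [a1.1]
      · intro h; exfalso; change F (b + 2) u < F (b + 2) v at h; linarith [a2.1]
    · show _ ↔ F (b + 2) u < F (b + 2) v
      rw [F_one C u h, F_one C v k, F_one b u h, F_one b v k]
      constructor <;> intro _ <;> linarith
    · have a1 := F_peak C u h (by omega)
      have a2 := F_peak b u h (by omega)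
      have b1 := F_valley C v k
      have b2 := F_valley b v k
      constructor
      · intro h; exfalso; linarith
      · intro h; exfalso; change F (b + 2) u < F (b + 2) v at h; linarith
    · have a1 := F_mid C v k (by omega)
      have a2 := F_mid b v k (by omega)
      have b1 := F_valley C u h
      have b2 := F_valley b u h
      constructor <;> intro _ <;> show _ < _ <;> linarith [a1.2, a2.2]
    · have a1 := F_peak C v k (by omega)
      have a2 := F_peak b v k (by omega)
      have b1 := F_valley C u h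
      have b2 := F_valley b u h
      constructor <;> intro _ <;> show _ < _ <;> linarith
    · show _ ↔ F (b + 2) u < F (b + 2) v
      rw [F_three C u h, F_three C v k, F_three b u h, F_three b v k]
      constructor <;> intro _ <;> linarith

theorem F_inj : ∀ (B u v : ℕ), 0 < u → u < 2 ^ B → 0 < v → v < 2 ^ B → F B u = F B v → u = v
  | 0, u, v, h1, h2, h3, h4, _ => by simp at h2 h4; omega
  | 1, u, v, h1, h2, h3, h4, _ => by simp at h2 h4; omega
  | (C + 2), u, v, h1, h2, h3, h4, he => by
    have e2 : 2 ^ (C + 2) = 2 * 2 ^ (C + 1) := by ring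
    have p3 : (0 : ℤ) < 4 ^ (C + 1) := by positivity
    have p4 : (0 : ℤ) < 4 ^ (C + 2) := by positivity
    have hu' : u % 2 = 0 ∨ u % 4 = 1 ∨ u % 4 = 3 := by omega
    have hv' : v % 2 = 0 ∨ v % 4 = 1 ∨ v % 4 = 3 := by omega
    rcases hu' with h | h | h <;> rcases hv' with k | k | k
    · rw [F_even C u h, F_even C v k] at he
      have := F_inj (C + 1) (u / 2) (v / 2) (by omega) (by omega) (by omega) (by omega) he
      omega
    · have a1 := F_mid C u h (by omega)
      have b1 := F_peak C v k (by omega)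
      exfalso; linarith [a1.1]
    · have a1 := F_mid C u h (by omega)
      have b1 := F_valley C v k
      exfalso; linarith [a1.2]
    · have a1 := F_mid C v k (by omega)
      have b1 := F_peak C u h (by omega)
      exfalso; linarith [a1.1]
    · rw [F_one C u h, F_one C v k] at he
      have : (u : ℤ) = v := by linarith
      exact_mod_cast this
    · have a1 := F_peak C u h (by omega)
      have b1 := F_valley C v k
      exfalso; linarith
    · have a1 := F_mid C v k (by omega)
      have b1 := F_valley C u h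
      exfalso; linarith [a1.2]
    · have a1 := F_peak C v k (by omega)
      have b1 := F_valley C u h
      exfalso; linarith
    · rw [F_three C u h, F_three C v k] at he
      have : (u : ℤ) = v := by linarith
      exact_mod_cast this

end Pool.Agent.Q20.ESQ
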