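import Pool.Agent.Q20.ESQ.Core

set_option autoImplicit false

/-!
# The modified sequence: sixteen entries at each end are replaced
-/

namespace Pool.Agent.Q20.ESQ

/-- the order pattern of the sixteen first entries -/
def R : ℕ → ℕ
  | 0 => 8
  | 1 => 1
  | 2 => 2
  | 3 => 7
  | 4 => 6
  | 5 => 4
  | 6 => 5
  | 7 => 15
  | 8 => 3
  | 9 => 0
  | 10 => 9
  | 11 => 13
  | 12 => 12
  | 13 => 10
  | 14 => 11
  | 15 => 14
  | _ => 0

theorem R_lt (i : ℕ) : R i < 16 := by
  rcases Nat.lt_or_ge i 16 with h | h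
  · interval_cases i <;> decide
  · have : R i = 0 := by
      obtain ⟨k, rfl⟩ : ∃ k, i = k + 16 := ⟨i - 16, by omega⟩
      rfl
    omega

/-- The sequence: place `i` carries the index `u = i + 6`; it has `2 ^ B - 11` places. -/
def f (B i : ℕ) : ℤ :=
  if i < 16 then 4 ^ B - 16 + R i
  else if i + 27 < 2 ^ B then F B (i + 6)
  else -(4 ^ B - 16 + R (2 ^ B - 12 - i))

theorem f_left (B i : ℕ) (h : i < 16) : f B i = 4 ^ B - 16 + R i := by simp [f, h]

theorem f_mid (B i : ℕ) (h : 16 ≤ i) (h2 : i + 27 < 2 ^ B) : f B i = F B (i + 6) := by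
  have : ¬ i < 16 := by omega
  simp [f, this, h2]

theorem f_right (B i : ℕ) (h : 16 ≤ i) (h2 : 2 ^ B ≤ i + 27) :
    f B i = -(4 ^ B - 16 + R (2 ^ B - 12 - i)) := by
  have h1 : ¬ i < 16 := by omega
  have h3 : ¬ i + 27 < 2 ^ B := by omega
  simp [f, h1, h3]

theorem pow_ge (B : ℕ) (hB : 7 ≤ B) : 128 ≤ 2 ^ B := by
  calc 128 = 2 ^ 7 := by norm_num
    _ ≤ 2 ^ B := Nat.pow_le_pow_right (by norm_num) hB

theorem f_anti (B i : ℕ) (hB : 7 ≤ B) (h : i < 2 ^ B - 11) : f B (2 ^ B - 12 - i) = - f B i := by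
  have := pow_ge B hB
  rcases Nat.lt_or_ge i 16 with h1 | h1
  · rw [f_left B i h1, f_right B _ (by omega) (by omega)]
    congr 4
    omega
  · rcases Nat.lt_or_ge (i + 27) (2 ^ B) with h2 | h2
    · rw [f_mid B i h1 h2, f_mid B _ (by omega) (by omega), ← F_anti B (i + 6) (by omega) (by omega)]
      congr 1
      omega
    · rw [f_right B i h1 h2, f_left B _ (by omega)]
      ring

/-- comparisons among the first places -/
theorem f_cmp (B i j : ℕ) (hB : 7 ≤ B) (hi : i < 38) (hj : j < 38) :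
    f B i < f B j ↔ f 7 i < f 7 j := by
  have h128 := pow_ge B hB
  obtain ⟨C, rfl⟩ : ∃ C, B = C + 2 := ⟨B - 2, by omega⟩
  have p3 : (4 : ℤ) ^ 6 ≤ 4 ^ (C + 1) := pow_le_pow_right₀ (by norm_num) (by omega)
  have e4 : (4 : ℤ) ^ (C + 2) = 4 * 4 ^ (C + 1) := by ring
  have p4 : (0 : ℤ) < 4 ^ (C + 2) := by positivity
  norm_num at p3
  have hR1 := R_lt i
  have hR2 := R_lt j
  have hR1' : (R i : ℤ) < 16 := by exact_mod_cast hR1
  have hR2' : (R j : ℤ) < 16 := by exact_mod_cast hR2
  have hR1'' : (0 : ℤ) ≤ R i := by positivity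
  have hR2'' : (0 : ℤ) ≤ R j := by positivity
  rcases Nat.lt_or_ge i 16 with h1 | h1 <;> rcases Nat.lt_or_ge j 16 with h2 | h2
  · rw [f_left _ i h1, f_left _ j h2, f_left _ i h1, f_left _ j h2]
    constructor <;> intro _ <;> linarith
  · rw [f_left _ i h1, f_left _ i h1, f_mid _ j h2 (by omega), f_mid _ j h2 (by norm_num; omega)]
    have hv' : (j + 6) % 2 = 0 ∨ (j + 6) % 4 = 1 ∨ (j + 6) % 4 = 3 := by omega
    rcases hv' with k | k | k
    · have a1 := F_mid C (j + 6) k (by omega)
      have a2 := F_mid 5 (j + 6) k (by norm_num; omega)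
      norm_num at a2
      constructor
      · intro h; exfalso; linarith [a1.1]
      · intro h; exfalso; norm_num at h; linarith [a2.1]
    · have b1 := F_peak C (j + 6) k (by omega)
      have b2 := F_peak 5 (j + 6) k (by norm_num; omega)
      norm_num at b2
      constructor
      · intro _; norm_num; linarith
      · intro _; linarith
    · have b1 := F_valley C (j + 6) k
      have b2 := F_valley 5 (j + 6) k
      norm_num at b2
      constructor
      · intro h; exfalso; linarith
      · intro h; exfalso; norm_num at h; linarith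
  · rw [f_left _ j h2, f_left _ j h2, f_mid _ i h1 (by omega), f_mid _ i h1 (by norm_num; omega)]
    have hv' : (i + 6) % 2 = 0 ∨ (i + 6) % 4 = 1 ∨ (i + 6) % 4 = 3 := by omega
    rcases hv' with k | k | k
    · have a1 := F_mid C (i + 6) k (by omega)
      have a2 := F_mid 5 (i + 6) k (by norm_num; omega)
      norm_num at a2
      constructor
      · intro _; norm_num; linarith [a2.1]
      · intro _; linarith [a1.1]
    · have b1 := F_peak C (i + 6) k (by omega)
      have b2 := F_peak 5 (i + 6) k (by norm_num; omega)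
      norm_num at b2
      constructor
      · intro h; exfalso; linarith
      · intro h; exfalso; norm_num at h; linarith
    · have b1 := F_valley C (i + 6) k
      have b2 := F_valley 5 (i + 6) k
      norm_num at b2
      constructor
      · intro _; norm_num; linarith
      · intro _; linarith
  · rw [f_mid _ i h1 (by omega), f_mid _ i h1 (by norm_num; omega), f_mid _ j h2 (by omega),
      f_mid _ j h2 (by norm_num; omega)]
    exact F_cmp 6 (C + 2) (by omega) (i + 6) (j + 6) (by norm_num; omega) (by norm_num; omega)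

/-- injectivity -/
theorem f_inj (B i j : ℕ) (hB : 7 ≤ B) (hi : i < 2 ^ B - 11) (hj : j < 2 ^ B - 11)
    (he : f B i = f B j) : i = j := by
  have h128 := pow_ge B hB
  obtain ⟨C, rfl⟩ : ∃ C, B = C + 2 := ⟨B - 2, by omega⟩
  have p3 : (4 : ℤ) ^ 6 ≤ 4 ^ (C + 1) := pow_le_pow_right₀ (by norm_num) (by omega)
  have e4 : (4 : ℤ) ^ (C + 2) = 4 * 4 ^ (C + 1) := by ring
  norm_num at p3
  have hRinj : ∀ a < 16, ∀ b < 16, R a = R b → a = b := by decide
  have hR0 : ∀ k, (0 : ℤ) ≤ R k := fun k => by positivity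
  have hR16 : ∀ k, (R k : ℤ) < 16 := fun k => by exact_mod_cast R_lt k
  have hFne : ∀ u : ℕ, u < 2 ^ (C + 2) → ∀ r : ℤ, 0 ≤ r → r < 16 →
      F (C + 2) u ≠ 4 ^ (C + 2) - 16 + r ∧ F (C + 2) u ≠ -(4 ^ (C + 2) - 16 + r) := by
    intro u hu r hr0 hr
    have hv' : u % 2 = 0 ∨ u % 4 = 1 ∨ u % 4 = 3 := by omega
    rcases hv' with k | k | k
    · have a1 := F_mid C u k hu
      constructor <;> intro h <;> linarith [a1.1, a1.2]
    · have b1 := F_peak C u k hu
      constructor <;> intro h <;> linarith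
    · have b1 := F_valley C u k
      constructor <;> intro h <;> linarith
  rcases Nat.lt_or_ge i 16 with h1 | h1
  · rcases Nat.lt_or_ge j 16 with h2 | h2
    · rw [f_left _ i h1, f_left _ j h2] at he
      exact hRinj i h1 j h2 (by exact_mod_cast (by linarith : (R i : ℤ) = R j))
    · rcases Nat.lt_or_ge (j + 27) (2 ^ (C + 2)) with h3 | h3
      · rw [f_left _ i h1, f_mid _ j h2 h3] at he
        exact absurd he.symm (hFne (j + 6) (by omega) _ (hR0 _) (hR16 _)).1
      · rw [f_left _ i h1, f_right _ j h2 h3] at he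
        have := hR0 i
        have := hR0 (2 ^ (C + 2) - 12 - j)
        linarith
  · rcases Nat.lt_or_ge (i + 27) (2 ^ (C + 2)) with h4 | h4
    · rcases Nat.lt_or_ge j 16 with h2 | h2
      · rw [f_left _ j h2, f_mid _ i h1 h4] at he
        exact absurd he (hFne (i + 6) (by omega) _ (hR0 _) (hR16 _)).1
      · rcases Nat.lt_or_ge (j + 27) (2 ^ (C + 2)) with h3 | h3
        · rw [f_mid _ i h1 h4, f_mid _ j h2 h3] at he
          have := F_inj _ _ _ (by omega) (by omega) (by omega) (by omega) he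
          omega
        · rw [f_mid _ i h1 h4, f_right _ j h2 h3] at he
          exact absurd he (hFne (i + 6) (by omega) _ (hR0 _) (hR16 _)).2
    · rcases Nat.lt_or_ge j 16 with h2 | h2
      · rw [f_left _ j h2, f_right _ i h1 h4] at he
        have := hR0 j
        have := hR0 (2 ^ (C + 2) - 12 - i)
        linarith
      · rcases Nat.lt_or_ge (j + 27) (2 ^ (C + 2)) with h3 | h3
        · rw [f_right _ i h1 h4, f_mid _ j h2 h3] at he
          exact absurd he.symm (hFne (j + 6) (by omega) _ (hR0 _) (hR16 _)).2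
        · rw [f_right _ i h1 h4, f_right _ j h2 h3] at he
          have := hRinj (2 ^ (C + 2) - 12 - i) (by omega) (2 ^ (C + 2) - 12 - j) (by omega)
            (by exact_mod_cast (by linarith :
              (R (2 ^ (C + 2) - 12 - i) : ℤ) = R (2 ^ (C + 2) - 12 - j)))
          omega

/-- the directions in the first 38 places -/
theorem dir7 : ∀ i < 37, (f 7 i < f 7 (i + 1) ↔ ((i + 6) % 4 = 3 ∨ (i + 6) % 4 = 0)) := by
  decide +kernel

/-- directions -/
theorem f_dir (B i : ℕ) (hB : 7 ≤ B) (hi : i + 1 < 2 ^ B - 11) :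
    f B i < f B (i + 1) ↔ ((i + 6) % 4 = 3 ∨ (i + 6) % 4 = 0) := by
  have h128 := pow_ge B hB
  have e4 : 2 ^ B % 4 = 0 := by
    obtain ⟨C, rfl⟩ : ∃ C, B = C + 2 := ⟨B - 2, by omega⟩
    have : 2 ^ (C + 2) = 4 * 2 ^ C := by ring
    omega
  have left : ∀ i, i < 37 → (f B i < f B (i + 1) ↔ ((i + 6) % 4 = 3 ∨ (i + 6) % 4 = 0)) := by
    intro i hi
    rw [f_cmp B i (i + 1) hB (by omega) (by omega)]
    exact dir7 i hi
  rcases Nat.lt_or_ge i 37 with h1 | h1
  · exact left i h1
  · rcases Nat.lt_or_ge (i + 28) (2 ^ B) with h2 | h2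
    · rw [f_mid B i (by omega) (by omega), f_mid B (i + 1) (by omega) (by omega)]
      obtain ⟨C, rfl⟩ : ∃ C, B = C + 2 := ⟨B - 2, by omega⟩
      exact F_dir C (i + 6) (by omega) (by omega)
    · have a1 := f_anti B i hB (by omega)
      have a2 := f_anti B (i + 1) hB (by omega)
      have l := left (2 ^ B - 12 - (i + 1)) (by omega)
      rw [show 2 ^ B - 12 - (i + 1) + 1 = 2 ^ B - 12 - i by omega, a1, a2] at l
      rw [neg_lt_neg_iff] at l
      rw [l]
      omega

/-- the search for a mismatch -/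
def chk (i k : ℕ) : Bool :=
  (List.range (4 * k)).any fun a => (List.range (4 * k)).any fun b =>
    (decide (f 7 (i + a) < f 7 (i + b))) != (decide (f 7 (i + 4 * k + a) < f 7 (i + 4 * k + b)))

theorem chk_all : ∀ i < 16, ∀ k < 5, 1 ≤ k → i + 2 * (4 * k) ≤ 38 → chk i k = true := by
  decide +kernel

/-- no short square near the left end -/
theorem nosq7 : ∀ i < 16, ∀ k < 5, 1 ≤ k → i + 2 * (4 * k) ≤ 38 →
    ∃ a < 4 * k, ∃ b < 4 * k, ¬ (f 7 (i + a) < f 7 (i + b) ↔
      f 7 (i + 4 * k + a) < f 7 (i + 4 * k + b)) := by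
  intro i hi k hk h1 h2
  have h := chk_all i hi k hk h1 h2
  unfold chk at h
  rw [List.any_eq_true] at h
  obtain ⟨a, ha, h⟩ := h
  rw [List.any_eq_true] at h
  obtain ⟨b, hb, h⟩ := h
  refine ⟨a, List.mem_range.1 ha, b, List.mem_range.1 hb, ?_⟩
  intro hc
  simp [hc] at h

/-- squares starting in the left part -/
theorem nosq_left (B i l : ℕ) (hB : 7 ≤ B) (hl : 2 ≤ l) (h4 : l % 4 = 0) (hi : i < 16)
    (hn : i + 2 * l ≤ 2 ^ B - 11) :
    ¬ ∀ a < l, ∀ b < l, (f B (i + a) < f B (i + b) ↔ f B (i + l + a) < f B (i + l + b)) := by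
  intro hs
  have h128 := pow_ge B hB
  rcases Nat.lt_or_ge (i + 2 * l) 39 with h1 | h1
  · obtain ⟨a, ha, b, hb, hab⟩ := nosq7 i hi (l / 4) (by omega) (by omega) (by omega)
    have h5 : 4 * (l / 4) = l := by omega
    rw [h5] at ha hb hab
    apply hab
    rw [← f_cmp B _ _ hB (by omega) (by omega), ← f_cmp B _ _ hB (by omega) (by omega)]
    exact hs a ha b hb
  · -- the largest entry sits at place 19
    obtain ⟨C, rfl⟩ : ∃ C, B = C + 2 := ⟨B - 2, by omega⟩
    have p3 : (4 : ℤ) ^ 6 ≤ 4 ^ (C + 1) := pow_le_pow_right₀ (by norm_num) (by omega)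
    have e4 : (4 : ℤ) ^ (C + 2) = 4 * 4 ^ (C + 1) := by ring
    norm_num at p3
    obtain ⟨t, ht, htm⟩ : ∃ t, t ≤ 3 ∧ (i + l + t + 6) % 4 = 1 := by
      refine ⟨(3 + 3 * (i + l + 6 + 2)) % 4, by omega, by omega⟩
    have key := hs t (by omega) (19 - i) (by omega)
    have hG : f (C + 2) 19 = F (C + 2) 25 := f_mid _ 19 (by omega) (by omega)
    have hGp := F_peak C 25 (by norm_num) (by omega)
    have L : f (C + 2) (i + t) < f (C + 2) (i + (19 - i)) := by
      rw [show i + (19 - i) = 19 by omega, hG]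
      rcases Nat.lt_or_ge (i + t) 16 with h2 | h2
      · rw [f_left _ _ h2]
        have : (R (i + t) : ℤ) < 16 := by exact_mod_cast R_lt _
        linarith
      · rw [f_mid _ _ h2 (by omega)]
        have hv' : (i + t + 6) % 2 = 0 ∨ (i + t + 6) % 4 = 1 ∨ (i + t + 6) % 4 = 3 := by omega
        rcases hv' with k | k | k
        · have a1 := F_mid C _ k (by omega)
          linarith [a1.1]
        · omega
        · have b1 := F_valley C _ k
          linarith
    have q := key.1 L
    have hq : f (C + 2) (i + l + t) = F (C + 2) (i + l + t + 6) :=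
      f_mid _ _ (by omega) (by omega)
    have hqp := F_peak C (i + l + t + 6) htm (by omega)
    rw [hq] at q
    rcases Nat.lt_or_ge (i + l + (19 - i) + 27) (2 ^ (C + 2)) with h3 | h3
    · rw [f_mid _ _ (by omega) h3] at q
      have hv' : (i + l + (19 - i) + 6) % 2 = 0 ∨ (i + l + (19 - i) + 6) % 4 = 1 ∨
          (i + l + (19 - i) + 6) % 4 = 3 := by omega
      rcases hv' with k | k | k
      · have a1 := F_mid C _ k (by omega)
        linarith [a1.1]
      · rw [F_one C _ htm, F_one C _ k] at q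
        have : ((i + l + t + 6 : ℕ) : ℤ) < ((i + l + (19 - i) + 6 : ℕ) : ℤ) := by
          exact_mod_cast (by omega : i + l + t + 6 < i + l + (19 - i) + 6)
        linarith
      · have b1 := F_valley C _ k
        linarith
    · rw [f_right _ _ (by omega) h3] at q
      have : (0 : ℤ) ≤ R (2 ^ (C + 2) - 12 - (i + l + (19 - i))) := by positivity
      linarith

/-- **no squares** -/
theorem nosq (B i l : ℕ) (hB : 7 ≤ B) (hl : 2 ≤ l) (hn : i + 2 * l ≤ 2 ^ B - 11) :
    ¬ ∀ a < l, ∀ b < l, (f B (i + a) < f B (i + b) ↔ f B (i + l + a) < f B (i + l + b)) := by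
  intro hs
  have h128 := pow_ge B hB
  have h4 : l % 4 = 0 := by
    refine four_dvd_of_dir (f B) 6 i l hl ?_ hs
    intro j h1 h2
    exact f_dir B j hB (by omega)
  rcases Nat.lt_or_ge i 16 with h1 | h1
  · exact nosq_left B i l hB hl h4 h1 hn hs
  · rcases Nat.lt_or_ge (i + 2 * l + 26) (2 ^ B) with h2 | h2
    · refine F_nosq B (i + 6) l hl (by omega) (by omega) ?_
      intro a ha b hb
      have := hs a ha b hb
      rw [f_mid _ _ (by omega) (by omega), f_mid _ _ (by omega) (by omega),
        f_mid _ _ (by omega) (by omega), f_mid _ _ (by omega) (by omega)] at this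
      rw [show i + 6 + a = i + a + 6 by ring, show i + 6 + b = i + b + 6 by ring,
        show i + 6 + l + a = i + l + a + 6 by ring, show i + 6 + l + b = i + l + b + 6 by ring]
      exact this
    · refine nosq_left B (2 ^ B - 11 - (i + 2 * l)) l hB hl h4 (by omega) (by omega) ?_
      intro a ha b hb
      have := hs (l - 1 - b) (by omega) (l - 1 - a) (by omega)
      have r : ∀ x, x < 2 * l → f B (2 ^ B - 11 - (i + 2 * l) + x) = - f B (i + (2 * l - 1 - x)) := by
        intro x hx
        rw [← f_anti B _ hB (by omega)]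
        congr 1
        omega
      rw [r a (by omega), r b (by omega),
        show 2 ^ B - 11 - (i + 2 * l) + l + a = 2 ^ B - 11 - (i + 2 * l) + (l + a) by ring,
        show 2 ^ B - 11 - (i + 2 * l) + l + b = 2 ^ B - 11 - (i + 2 * l) + (l + b) by ring,
        r (l + a) (by omega), r (l + b) (by omega), neg_lt_neg_iff, neg_lt_neg_iff,
        show i + (2 * l - 1 - b) = i + l + (l - 1 - b) by omega,
        show i + (2 * l - 1 - a) = i + l + (l - 1 - a) by omega,
        show 2 * l - 1 - (l + b) = l - 1 - b by omega,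
        show 2 * l - 1 - (l + a) = l - 1 - a by omega]
      exact this.symm

end Pool.Agent.Q20.ESQ
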