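import Pool.Agent.Q20.ESQ.Glue

set_option autoImplicit false

/-!
# Insertions into the modified sequence
-/

namespace Pool.Agent.Q20.ESQ

/-- the sequence with `x` inserted before place `p` -/
def ins (B p : ℕ) (x : ℚ) (j : ℕ) : ℚ :=
  if j < p then (f B j : ℚ) else if j = p then x else (f B (j - 1) : ℚ)

/-- model of the first seventeen places after an insertion -/
def G (p k j : ℕ) : ℕ :=
  if j < p then 2 * R j + 1 else if j = p then 2 * k else 2 * R (j - 1) + 1

def sqb (g : ℕ → ℕ) (i l : ℕ) : Bool :=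
  (List.range l).all fun a => (List.range l).all fun b =>
    (decide (g (i + a) < g (i + b))) == (decide (g (i + l + a) < g (i + l + b)))

theorem sqb_spec (g : ℕ → ℕ) (i l : ℕ) (h : sqb g i l = true) :
    ∀ a < l, ∀ b < l, (g (i + a) < g (i + b) ↔ g (i + l + a) < g (i + l + b)) := by
  intro a ha b hb
  unfold sqb at h
  rw [List.all_eq_true] at h
  have h1 := h a (List.mem_range.2 ha)
  rw [List.all_eq_true] at h1
  have h2 := h1 b (List.mem_range.2 hb)
  have h3 := eq_of_beq h2
  rw [decide_eq_decide] at h3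
  exact h3

theorem table : ∀ p < 3, ∀ k < 17, (sqb (G p k) 0 2 || sqb (G p k) 0 4 || sqb (G p k) 0 8 ||
    sqb (G p k) 1 2) = true := by
  decide +kernel

/-- insertion near the left end -/
theorem ins_left (B p : ℕ) (x : ℚ) (hp : p < 3) (hx : ∀ i < 16, x ≠ (f B i : ℚ)) :
    ∃ i l : ℕ, 2 ≤ l ∧ i + 2 * l ≤ 16 ∧ ∀ a < l, ∀ b < l,
      (ins B p x (i + a) < ins B p x (i + b) ↔ ins B p x (i + l + a) < ins B p x (i + l + b)) := by
  set C : ℚ := 4 ^ B - 16 with hC
  have hf : ∀ i < 16, (f B i : ℚ) = C + R i := by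
    intro i hi
    rw [f_left B i hi]
    push_cast
    ring
  set k : ℕ := min 16 (⌈x - C⌉).toNat with hk
  have hk17 : k < 17 := by omega
  have hlt : ∀ i < 16, ((f B i : ℚ) < x ↔ R i < k) := by
    intro i hi
    rw [hf i hi]
    have hR := R_lt i
    have h1 : (C + R i < x) ↔ ((R i : ℤ) < ⌈x - C⌉) := by
      rw [Int.lt_ceil]
      push_cast
      constructor <;> intro h <;> linarith
    rw [h1]
    omega
  have hgt : ∀ i < 16, (x < (f B i : ℚ) ↔ k ≤ R i) := by
    intro i hi
    have h1 := hlt i hi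
    have h2 := hx i hi
    constructor
    · intro h
      by_contra hc
      have := h1.2 (by omega)
      linarith
    · intro h
      have h3 : ¬ (f B i : ℚ) < x := fun h4 => by
        have := h1.1 h4
        omega
      exact lt_of_le_of_ne (not_lt.1 h3) h2
  -- comparisons agree with the model
  have hcmp : ∀ a b : ℕ, a < 16 → b < 16 →
      (ins B p x a < ins B p x b ↔ G p k a < G p k b) := by
    intro a b ha hb
    have hff : ∀ i j : ℕ, i < 16 → j < 16 → ((f B i : ℚ) < (f B j : ℚ) ↔
        2 * R i + 1 < 2 * R j + 1) := by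
      intro i j hi hj
      rw [hf i hi, hf j hj]
      constructor
      · intro h
        have : (R i : ℚ) < R j := by linarith
        have : R i < R j := by exact_mod_cast this
        omega
      · intro h
        have : R i < R j := by omega
        have : (R i : ℚ) < R j := by exact_mod_cast this
        linarith
    unfold ins G
    rcases lt_trichotomy a p with h1 | h1 | h1 <;> rcases lt_trichotomy b p with h2 | h2 | h2
    · rw [if_pos h1, if_pos h2, if_pos h1, if_pos h2]
      exact hff a b ha hb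
    · subst h2
      rw [if_pos h1, if_neg (lt_irrefl _), if_pos rfl, if_pos h1, if_neg (lt_irrefl _), if_pos rfl,
        hlt a ha]
      omega
    · rw [if_pos h1, if_neg (by omega), if_neg (by omega), if_pos h1, if_neg (by omega),
        if_neg (by omega)]
      exact hff a (b - 1) ha (by omega)
    · subst h1
      rw [if_neg (lt_irrefl _), if_pos rfl, if_pos h2, if_neg (lt_irrefl _), if_pos rfl, if_pos h2,
        hgt b hb]
      omega
    · subst h1
      subst h2
      simp
    · subst h1
      rw [if_neg (lt_irrefl _), if_pos rfl, if_neg (by omega), if_neg (by omega),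
        if_neg (lt_irrefl _), if_pos rfl, if_neg (by omega), if_neg (by omega),
        hgt (b - 1) (by omega)]
      omega
    · rw [if_neg (by omega), if_neg (by omega), if_pos h2, if_neg (by omega), if_neg (by omega),
        if_pos h2]
      exact hff (a - 1) b (by omega) hb
    · subst h2
      rw [if_neg (by omega), if_neg (by omega), if_neg (lt_irrefl _), if_pos rfl,
        if_neg (by omega), if_neg (by omega), if_neg (lt_irrefl _), if_pos rfl,
        hlt (a - 1) (by omega)]
      omega
    · rw [if_neg (by omega), if_neg (by omega), if_neg (by omega), if_neg (by omega),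
        if_neg (by omega), if_neg (by omega), if_neg (by omega), if_neg (by omega)]
      exact hff (a - 1) (b - 1) (by omega) (by omega)
  have fin : ∀ i l : ℕ, i + 2 * l ≤ 16 → sqb (G p k) i l = true → ∀ a < l, ∀ b < l,
      (ins B p x (i + a) < ins B p x (i + b) ↔
        ins B p x (i + l + a) < ins B p x (i + l + b)) := by
    intro i l hil hs a ha b hb
    rw [hcmp _ _ (by omega) (by omega), hcmp _ _ (by omega) (by omega)]
    exact sqb_spec _ _ _ hs a ha b hb
  have ht := table p hp k hk17
  simp only [Bool.or_eq_true] at ht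
  rcases ht with ((h | h) | h) | h
  · exact ⟨0, 2, by norm_num, by norm_num, fin 0 2 (by norm_num) h⟩
  · exact ⟨0, 4, by norm_num, by norm_num, fin 0 4 (by norm_num) h⟩
  · exact ⟨0, 8, by norm_num, by norm_num, fin 0 8 (by norm_num) h⟩
  · exact ⟨1, 2, by norm_num, by norm_num, fin 1 2 (by norm_num) h⟩

/-- reflection of an insertion -/
theorem ins_refl (B p : ℕ) (x : ℚ) (j : ℕ) (hB : 7 ≤ B) (hp : p ≤ 2 ^ B - 11)
    (hj : j < 2 ^ B - 10) :
    ins B (2 ^ B - 11 - p) (-x) (2 ^ B - 11 - j) = - ins B p x j := by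
  have h128 := pow_ge B hB
  unfold ins
  rcases lt_trichotomy j p with h | h | h
  · rw [if_neg (by omega), if_neg (by omega), if_pos h,
      show 2 ^ B - 11 - j - 1 = 2 ^ B - 12 - j by omega, f_anti B j hB (by omega)]
    push_cast
    ring
  · subst h
    simp
  · rw [if_pos (by omega), if_neg (by omega), if_neg (by omega),
      show 2 ^ B - 11 - j = 2 ^ B - 12 - (j - 1) by omega, f_anti B (j - 1) hB (by omega)]
    push_cast
    ring

/-- every insertion creates a square -/
theorem ins_all (B p : ℕ) (x : ℚ) (hB : 7 ≤ B) (hp : p ≤ 2 ^ B - 11)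
    (hx : ∀ i < 2 ^ B - 11, x ≠ (f B i : ℚ)) :
    ∃ i l : ℕ, 2 ≤ l ∧ i + 2 * l ≤ 2 ^ B - 11 + 1 ∧ ∀ a < l, ∀ b < l,
      (ins B p x (i + a) < ins B p x (i + b) ↔ ins B p x (i + l + a) < ins B p x (i + l + b)) := by
  have h128 := pow_ge B hB
  rcases Nat.lt_or_ge p 3 with h1 | h1
  · obtain ⟨i, l, hl, hil, h⟩ := ins_left B p x h1 (fun i hi => hx i (by omega))
    exact ⟨i, l, hl, by omega, h⟩
  rcases Nat.lt_or_ge (p + 2) (2 ^ B - 11) with h2 | h2
  · -- interior insertion
    have dlt : ∀ j, j + 1 < 2 ^ B - 11 →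
        ((f B j : ℚ) < (f B (j + 1) : ℚ) ↔ ((j + 6) % 4 = 3 ∨ (j + 6) % 4 = 0)) := by
      intro j hj
      rw [Int.cast_lt]
      exact f_dir B j hB hj
    have dgt : ∀ j, j + 1 < 2 ^ B - 11 →
        ((f B (j + 1) : ℚ) < (f B j : ℚ) ↔ ¬ ((j + 6) % 4 = 3 ∨ (j + 6) % 4 = 0)) := by
      intro j hj
      rw [← dlt j hj, not_lt, le_iff_lt_or_eq]
      constructor
      · intro h; exact Or.inl h
      · rintro (h | h)
        · exact h
        · have h' : f B (j + 1) = f B j := by exact_mod_cast h
          have := f_inj B (j + 1) j hB (by omega) (by omega) h'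
          omega
    -- general shape of a square of half-length two
    have mk : ∀ i : ℕ, (ins B p x i < ins B p x (i + 1) ↔
          ins B p x (i + 2) < ins B p x (i + 3)) →
        (ins B p x (i + 1) < ins B p x i ↔ ins B p x (i + 3) < ins B p x (i + 2)) →
        ∀ a < 2, ∀ b < 2, (ins B p x (i + a) < ins B p x (i + b) ↔
          ins B p x (i + 2 + a) < ins B p x (i + 2 + b)) := by
      intro i u v a ha b hb
      have ha' : a = 0 ∨ a = 1 := by omega
      have hb' : b = 0 ∨ b = 1 := by omega
      rcases ha' with rfl | rfl <;> rcases hb' with rfl | rfl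
      · simp
      · exact u
      · exact v
      · simp
    obtain ⟨q, rfl⟩ : ∃ q, p = q + 3 := ⟨p - 3, by omega⟩
    have i0 : ins B (q + 3) x q = (f B q : ℚ) := by
      unfold ins; rw [if_pos (by omega)]
    have i1 : ins B (q + 3) x (q + 1) = (f B (q + 1) : ℚ) := by
      unfold ins; rw [if_pos (by omega)]
    have i2 : ins B (q + 3) x (q + 2) = (f B (q + 2) : ℚ) := by
      unfold ins; rw [if_pos (by omega)]
    have i3 : ins B (q + 3) x (q + 3) = x := by
      unfold ins; rw [if_neg (by omega), if_pos rfl]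
    have i4 : ins B (q + 3) x (q + 4) = (f B (q + 3) : ℚ) := by
      unfold ins; rw [if_neg (by omega), if_neg (by omega)]; rfl
    have i5 : ins B (q + 3) x (q + 5) = (f B (q + 4) : ℚ) := by
      unfold ins; rw [if_neg (by omega), if_neg (by omega)]; rfl
    have i6 : ins B (q + 3) x (q + 6) = (f B (q + 5) : ℚ) := by
      unfold ins; rw [if_neg (by omega), if_neg (by omega)]; rfl
    have d0 := dlt q (by omega)
    have d0' := dgt q (by omega)
    have d1 := dlt (q + 1) (by omega)
    have d1' := dgt (q + 1) (by omega)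
    have d3 := dlt (q + 3) (by omega)
    have d3' := dgt (q + 3) (by omega)
    have d4 := dlt (q + 4) (by omega)
    have d4' := dgt (q + 4) (by omega)
    have xa := hx (q + 2) (by omega)
    have xb := hx (q + 3) (by omega)
    -- the two new directions
    by_cases hA : (f B (q + 2) : ℚ) < x
    · have hA' : ¬ x < (f B (q + 2) : ℚ) := not_lt.2 hA.le
      by_cases hD : x < (f B (q + 3) : ℚ)
      · have hD' : ¬ (f B (q + 3) : ℚ) < x := not_lt.2 hD.le
        rcases (by omega : ((q + 6) % 4 = 3 ∨ (q + 6) % 4 = 0) ∨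
            ((q + 1 + 6) % 4 = 3 ∨ (q + 1 + 6) % 4 = 0) ∨
            ((q + 3 + 6) % 4 = 3 ∨ (q + 3 + 6) % 4 = 0)) with h | h | h
        · refine ⟨q, 2, le_refl _, by omega, mk q ?_ ?_⟩
          · rw [i0, i1, i2, i3, d0]; simp [h, hA]
          · rw [i0, i1, i2, i3, d0']; simp [h, hA']
        · refine ⟨q + 1, 2, le_refl _, by omega, mk (q + 1) ?_ ?_⟩
          · rw [i1, show q + 1 + 1 = q + 2 from rfl, show q + 1 + 2 = q + 3 from rfl,
              show q + 1 + 3 = q + 4 from rfl, i2, i3, i4, d1]; simp [h, hD]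
          · rw [i1, show q + 1 + 1 = q + 2 from rfl, show q + 1 + 2 = q + 3 from rfl,
              show q + 1 + 3 = q + 4 from rfl, i2, i3, i4, d1']; simp [h, hD']
        · refine ⟨q + 2, 2, le_refl _, by omega, mk (q + 2) ?_ ?_⟩
          · rw [i2, show q + 2 + 1 = q + 3 from rfl, show q + 2 + 2 = q + 4 from rfl,
              show q + 2 + 3 = q + 5 from rfl, i3, i4, i5, d3]; simp [h, hA]
          · rw [i2, show q + 2 + 1 = q + 3 from rfl, show q + 2 + 2 = q + 4 from rfl,
              show q + 2 + 3 = q + 5 from rfl, i3, i4, i5, d3']; simp [h, hA']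
      · have hD' : (f B (q + 3) : ℚ) < x := lt_of_le_of_ne (not_lt.1 hD) (Ne.symm xb)
        rcases (by omega : ((q + 6) % 4 = 3 ∨ (q + 6) % 4 = 0) ∨
            (¬ ((q + 4 + 6) % 4 = 3 ∨ (q + 4 + 6) % 4 = 0))) with h | h
        · refine ⟨q, 2, le_refl _, by omega, mk q ?_ ?_⟩
          · rw [i0, i1, i2, i3, d0]; simp [h, hA]
          · rw [i0, i1, i2, i3, d0']; simp [h, hA']
        · refine ⟨q + 3, 2, le_refl _, by omega, mk (q + 3) ?_ ?_⟩
          · rw [i3, show q + 3 + 1 = q + 4 from rfl, show q + 3 + 2 = q + 5 from rfl,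
              show q + 3 + 3 = q + 6 from rfl, i4, i5, i6, d4]; simp [h, hD]
          · rw [i3, show q + 3 + 1 = q + 4 from rfl, show q + 3 + 2 = q + 5 from rfl,
              show q + 3 + 3 = q + 6 from rfl, i4, i5, i6, d4']; simp [h, hD']
    · have hA' : x < (f B (q + 2) : ℚ) := lt_of_le_of_ne (not_lt.1 hA) xa
      by_cases hD : x < (f B (q + 3) : ℚ)
      · have hD' : ¬ (f B (q + 3) : ℚ) < x := not_lt.2 hD.le
        rcases (by omega : (¬ ((q + 6) % 4 = 3 ∨ (q + 6) % 4 = 0)) ∨
            ((q + 4 + 6) % 4 = 3 ∨ (q + 4 + 6) % 4 = 0)) with h | h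
        · refine ⟨q, 2, le_refl _, by omega, mk q ?_ ?_⟩
          · rw [i0, i1, i2, i3, d0]; simp [h, hA]
          · rw [i0, i1, i2, i3, d0']; simp [h, hA']
        · refine ⟨q + 3, 2, le_refl _, by omega, mk (q + 3) ?_ ?_⟩
          · rw [i3, show q + 3 + 1 = q + 4 from rfl, show q + 3 + 2 = q + 5 from rfl,
              show q + 3 + 3 = q + 6 from rfl, i4, i5, i6, d4]; simp [h, hD]
          · rw [i3, show q + 3 + 1 = q + 4 from rfl, show q + 3 + 2 = q + 5 from rfl,
              show q + 3 + 3 = q + 6 from rfl, i4, i5, i6, d4']; simp [h, hD']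
      · have hD' : (f B (q + 3) : ℚ) < x := lt_of_le_of_ne (not_lt.1 hD) (Ne.symm xb)
        rcases (by omega : (¬ ((q + 6) % 4 = 3 ∨ (q + 6) % 4 = 0)) ∨
            (¬ ((q + 1 + 6) % 4 = 3 ∨ (q + 1 + 6) % 4 = 0)) ∨
            (¬ ((q + 3 + 6) % 4 = 3 ∨ (q + 3 + 6) % 4 = 0))) with h | h | h
        · refine ⟨q, 2, le_refl _, by omega, mk q ?_ ?_⟩
          · rw [i0, i1, i2, i3, d0]; simp [h, hA]
          · rw [i0, i1, i2, i3, d0']; simp [h, hA']
        · refine ⟨q + 1, 2, le_refl _, by omega, mk (q + 1) ?_ ?_⟩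
          · rw [i1, show q + 1 + 1 = q + 2 from rfl, show q + 1 + 2 = q + 3 from rfl,
              show q + 1 + 3 = q + 4 from rfl, i2, i3, i4, d1]; simp [h, hD]
          · rw [i1, show q + 1 + 1 = q + 2 from rfl, show q + 1 + 2 = q + 3 from rfl,
              show q + 1 + 3 = q + 4 from rfl, i2, i3, i4, d1']; simp [h, hD']
        · refine ⟨q + 2, 2, le_refl _, by omega, mk (q + 2) ?_ ?_⟩
          · rw [i2, show q + 2 + 1 = q + 3 from rfl, show q + 2 + 2 = q + 4 from rfl,
              show q + 2 + 3 = q + 5 from rfl, i3, i4, i5, d3]; simp [h, hA]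
          · rw [i2, show q + 2 + 1 = q + 3 from rfl, show q + 2 + 2 = q + 4 from rfl,
              show q + 2 + 3 = q + 5 from rfl, i3, i4, i5, d3']; simp [h, hA']
  · -- insertion near the right end: reflect
    obtain ⟨i, l, hl, hil, h⟩ := ins_left B (2 ^ B - 11 - p) (-x) (by omega) (by
      intro i hi hc
      apply hx (2 ^ B - 12 - i) (by omega)
      rw [f_anti B i hB (by omega)]
      push_cast
      linarith)
    refine ⟨2 ^ B - 10 - (i + 2 * l), l, hl, by omega, ?_⟩
    intro a ha b hb
    have key := h (l - 1 - b) (by omega) (l - 1 - a) (by omega)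
    have r : ∀ y, y < 2 * l → ins B p x (2 ^ B - 10 - (i + 2 * l) + y) =
        - ins B (2 ^ B - 11 - p) (-x) (i + (2 * l - 1 - y)) := by
      intro y hy
      have := ins_refl B p x (2 ^ B - 10 - (i + 2 * l) + y) hB hp (by omega)
      rw [show 2 ^ B - 11 - (2 ^ B - 10 - (i + 2 * l) + y) = i + (2 * l - 1 - y) by omega] at this
      rw [this]
      ring
    rw [r a (by omega), r b (by omega),
      show 2 ^ B - 10 - (i + 2 * l) + l + a = 2 ^ B - 10 - (i + 2 * l) + (l + a) by ring,
      show 2 ^ B - 10 - (i + 2 * l) + l + b = 2 ^ B - 10 - (i + 2 * l) + (l + b) by ring,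
      r (l + a) (by omega), r (l + b) (by omega), neg_lt_neg_iff, neg_lt_neg_iff,
      show i + (2 * l - 1 - b) = i + l + (l - 1 - b) by omega,
      show i + (2 * l - 1 - a) = i + l + (l - 1 - a) by omega,
      show 2 * l - 1 - (l + b) = l - 1 - b by omega,
      show 2 * l - 1 - (l + a) = l - 1 - a by omega]
    exact key.symm

end Pool.Agent.Q20.ESQ
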